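import Pool.Agent.Q228.Rep.Main

/-!
# Orders of regular rep-cubes are sums of two squares

Let `f` fold a polyomino `A` to the surface of the cube of edge `l`.  The function
`h = cos (2π z₀ / l) + cos (2π z₁ / l) + cos (2π z₂ / l) - 1` on the surface unfolds across the
edges, so `h ∘ f` is given on all of `A` by one affine isometry; comparing areas near a vertex of
the cube (three quarter discs) with areas in `A` near its preimages shows that each vertex comes
from a lattice point.  Hence `l² (m² + n²) = a² + b²` with integers, and `6 l² = |A|`.
-/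

set_option autoImplicit false

namespace Pool.Agent.Results.MP_1e8db4_co.SumOfTwoSquares

open Pool.Agent.Helper697.Rep Pool.Agent.Q228.Rep

/-- (1) If `k` is a positive integer that is not a sum of two squares, there is no regular
rep-cube of order `k`.
(2) If a polyomino `A` is a net of some cube, then `6 |A|` is a sum of two squares. -/
theorem result :
    (∀ k : ℕ, 0 < k → (¬ ∃ a b : ℕ, k = a ^ 2 + b ^ 2) →
      ¬ ∃ P : Finset (ℤ × ℤ), IsRegularRepCube k P) ∧
    (∀ A : Finset (ℤ × ℤ), IsPolyomino A → NetOfCube A →
      ∃ a b : ℕ, 6 * A.card = a ^ 2 + b ^ 2) :=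
  ⟨fun k hk h ⟨P, hP⟩ => h (regular_order k hk P hP), fun _ hA h => net_card hA h⟩

end Pool.Agent.Results.MP_1e8db4_co.SumOfTwoSquares
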